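import Pool.Agent.Helper379_HC.Graph

/-! # Acyclicity of the clique complex of the 21-vertex graph (job M8a of MP_3ca9d5_al) -/

set_option autoImplicit false

namespace Pool.Agent.Helper514_HC

open Pool.Agent.W326.DU Pool.Agent.Y66.HC Pool.Agent.Helper379_HC

/-! ### Tables -/

/-- the edges -/
def cE : ℕ :=
  0x749d073db46c5b064d9163d735c97155153541344c92f4511343cf43c8f134cd2340b12c0af25093248912408f2388d22c881d0731c8711c06f1b86c1a86715053148511404f1344c124460d0330c8310c02f0ac2a0a42505013048110400f0200701805

/-- the triangles -/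
def cT : ℕ :=
  0x23a447408e791b4236246c08b9917222e24450889910f1ba437406e78d931b22363c6aa0d531aa033d06790cf1136826c44d809931322263c49a0932125e234c46908d00ae615c82b885540aa6154029a05320a5e12c425804af0228044c08780f401e403c406980d201a002c405800af

/-- edges of the triangles -/
def cT1 : ℕ :=
  0x9f3a6cc972a34588f5e3b9f3a6c9911e1c282e9cb8992e549911e03f7cddb358d16243850603f7cd19b27af1dba72e1bb66ad19b2

/-- edges of the triangles -/
def cT2 : ℕ :=
  0x5eb56315cb582f5cc582c4a8d12648893a6469d2a43a68c9c3460e9b3070d992444813243c9911c4078e12202090e184070a18284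

/-- edges of the triangles -/
def cT3 : ℕ :=
  0x56ad5aa54a94a952a142842850a04080f9f3e78f1e2e5cb962c58a952a50a141a3468c183058b162850a060c18204080810200000

/-- triangles at an edge -/
def cC1 : ℕ :=
  0xbeeb638a181f79759551349140f2ca2481c61440c2040cb1d33db0e76cf09a89649eab6a9e475a65f61b85e6d845340e34c5523cc2051020402460c0

/-- triangles at an edge -/
def cC2 : ℕ :=
  0xefae78df6b2bab5d33a689dd71bcb1c2696469960e34ce35ef7eb9eb7d31a6cbebbadbaba258e072285e89f71951759548f59340d2ca1c60c9287101

/-- triangles at an edge -/
def cC3 : ℕ :=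
  0xffffffffffffffffffffffffffffffffffffffffffffffffffffffef8d72fffffffffbeca66fffffffff8e075afffffffff5d444efffffffff2c8142

/-- signs of the edges -/
def cSG : ℕ :=
  0xfffffffc0f03c0f03c0f

/-- positive entries of the left inverse -/
def cLP : ℕ :=
  0x104d00000000200c0000c9000000c2b8c4000000000000002c000000000018000000420000000000c3208000a4f8de92000000440000000000040000836d800080f07e9e000040000000660880000000100000000000000000000264800000401a9600000000000000000000000099090003c3b064080000c0000000e60880000000004400000000000400001909000000b2640800008329800080b07e9a00001800000000000000000040000000244980000000026d800000403a9e00000000000000000000000089000000c2b0c400000008000000420000000000104d00000000200c0000c2208000a4e8da9200000264800000401a96000018000000000000000000c1000000e6b8c480000000000000000000000000c3208000a4f8da9200001809000000002448000008000000420000000000106d80000000200e00004200000024489ab000008129800080b06e9a0000400000006608800000001044000000000004000000000000000000000000106d00000000200c0000c3008000e6f8de92200008000000420000000000832d800080f07e9a0000004000000000000410000265800000403a96000040000000660880000000180800000000000808001040000000000000000089080000c2b0440000004200800024489a97b40018002002420000000000836d900180f07e9e000000000800000000000000026d840000c03a9e0000c0000200e628800000001800010000000000000000000080000000000000106d80400000280e0000c1000020e6b8c6800000c3008010e6f8de9320000040000800000004900018080004000000000000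

/-- negative entries of the left inverse -/
def cLN : ℕ :=
  0x40000000e60880000000004400000000000400009909000000b0640800000264800000401a96000010000000000000000000c9000000e2b8c400000000000000000000000000104d00000000200c0000c3208000e4f8de92000018000002420000000000836d800180f07e9e000000000000000000000000104d00000000200c000089000000c2b8c40000004000000024000000000000000000000000000000c2208000a4f8da92000019090000000024080000080000004200000000008329800080f07e9a000000440000000000040000026d800000c03a9e0000c0000000e628800000001800000000000000000008000000420000000000c3208000a4f8de920000104400000000000400008129800080b07e9a000018000000000000000000420000002448800000000264800000403a960000400000006608800000001809000000000008000000000000000000000000106d80000000280e0000c1000000e6b8c6800000832d800080f07e9e000040000000660880000000104000000000000000000265800000403a9e00000000000000000000000089080000c2b04400000008000000420000000000106d00000000200e00004200800024489a900000c3008000e6f8de93200000400000000000049000180800000000000000000264800000401a9600000000000000000000000099090003c3b06408000008000000420000000000104d00000000200c0000c2208000a4e8da9200008129800080b06e9a000040000000660880000000104400000000000400001040000000000000000089080000c2b0440000004200800024489a97b400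

/-- positive entries of the tree paths -/
def cHP : ℕ :=
  0x2000008000020000082000248000d21e000800002000008000020

/-- negative entries of the tree paths -/
def cHN : ℕ :=
  0x800000000000000080000000000000008000000000000000800000000000000080000000000000008000000000000000000000000000000000000000000000000000000000000000000000000000000000000000000000010000000000000000000000000000000000000000000000000000200000000000000000000000000000000000000000000000000004000000000000000000000000000000000000000000000000000080000000000000000000000000000000000000000000000000000000000000000000000000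

/-- bounded universal check -/
def allN (n : ℕ) (f : ℕ → Bool) : Bool := Nat.rec true (fun k r => f k && r) n

theorem allN_spec {n : ℕ} {f : ℕ → Bool} (h : allN n f = true) : ∀ k, k < n → f k = true := by
  induction n with
  | zero => intro k hk; omega
  | succ n ih =>
    have h' : (f n && allN n f) = true := h
    rw [Bool.and_eq_true] at h'
    intro k hk
    rcases Nat.lt_succ_iff_lt_or_eq.1 hk with h1 | h1
    · exact ih h'.2 k h1
    · rw [h1]; exact h'.1

/-- sum of an integer function -/
def sumN (n : ℕ) (f : ℕ → ℤ) : ℤ := Nat.rec 0 (fun k r => f k + r) n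

theorem sumN_spec (n : ℕ) (f : ℕ → ℤ) : ∑ i : Fin n, f i.val = sumN n f := by
  rw [Fin.sum_univ_eq_sum_range (fun i => f i) n]
  induction n with
  | zero => rfl
  | succ n ih =>
    rw [Finset.sum_range_succ, ih, add_comm]
    rfl

/-- code of the edge `i` -/
def eN (i : ℕ) : ℕ := (cE >>> (10 * i)) % 1024
/-- code of the triangle `j` -/
def tN (j : ℕ) : ℕ := (cT >>> (15 * j)) % 32768
/-- first edge -/
def t1N (j : ℕ) : ℕ := (cT1 >>> (7 * j)) % 128
/-- second edge -/
def t2N (j : ℕ) : ℕ := (cT2 >>> (7 * j)) % 128
/-- third edge -/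
def t3N (j : ℕ) : ℕ := (cT3 >>> (7 * j)) % 128
/-- first triangle -/
def c1N (i : ℕ) : ℕ := (cC1 >>> (6 * i)) % 64
/-- second triangle -/
def c2N (i : ℕ) : ℕ := (cC2 >>> (6 * i)) % 64
/-- third triangle -/
def c3N (i : ℕ) : ℕ := (cC3 >>> (6 * i)) % 64
/-- sign -/
def sgN (i : ℕ) : ℤ := if cSG.testBit i then 1 else -1
/-- left inverse -/
def lN (j i : ℕ) : ℤ :=
  (if cLP.testBit (80 * j + i) then 1 else 0) - (if cLN.testBit (80 * j + i) then 1 else 0)
/-- tree paths -/
def hN (i v : ℕ) : ℤ :=
  (if cHP.testBit (21 * i + v) then 1 else 0) - (if cHN.testBit (21 * i + v) then 1 else 0)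

/-! ### Facts on the tables -/

theorem eG_code : ∀ i : Fin 80, (eG i).1.val = eN i.val / 32 ∧ (eG i).2.val = eN i.val % 32 := by
  decide +kernel

theorem tG_code : ∀ j : Fin 60, (tG j).1.val = tN j.val / 1024 ∧
    (tG j).2.1.val = tN j.val / 32 % 32 ∧ (tG j).2.2.val = tN j.val % 32 := by decide +kernel

theorem symG : ∀ a b, adG a b → adG b a := by decide +kernel

theorem irrG : ∀ a, ¬ adG a a := by decide +kernel

theorem eG_adj : ∀ i, adG (eG i).1 (eG i).2 := by decide +kernel

theorem tG_adj : ∀ j, adG (tG j).1 (tG j).2.1 ∧ adG (tG j).2.1 (tG j).2.2 ∧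
    adG (tG j).1 (tG j).2.2 := by decide +kernel

theorem eN_lt : ∀ i : Fin 80, eN i.val / 32 < eN i.val % 32 := by decide +kernel

theorem tN_lt : ∀ j : Fin 60, tN j.val / 1024 < tN j.val / 32 % 32 ∧
    tN j.val / 32 % 32 < tN j.val % 32 := by decide +kernel

theorem eN_mono : ∀ i : Fin 79, eN i.val < eN (i.val + 1) := by decide +kernel

theorem tN_mono : ∀ j : Fin 59, tN j.val < tN (j.val + 1) := by decide +kernel

theorem eN_inj (i i' : Fin 80) (h : eN i.val = eN i'.val) : i = i' := by
  have hm : StrictMono (fun i : Fin 80 => eN i.val) := by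
    rw [Fin.strictMono_iff_lt_succ]
    intro i
    exact eN_mono i
  exact hm.injective h

theorem tN_inj (j j' : Fin 60) (h : tN j.val = tN j'.val) : j = j' := by
  have hm : StrictMono (fun i : Fin 60 => tN i.val) := by
    rw [Fin.strictMono_iff_lt_succ]
    intro i
    exact tN_mono i
  exact hm.injective h

theorem tE : ∀ j : Fin 60, t1N j.val < 80 ∧ t2N j.val < 80 ∧ t3N j.val < 80 ∧
    eN (t1N j.val) = tN j.val % 1024 ∧
    eN (t2N j.val) = tN j.val / 1024 * 32 + tN j.val % 32 ∧
    eN (t3N j.val) = tN j.val / 32 := by decide +kernel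

theorem eG_ex0 : allN 21 (fun b => allN b (fun a => !((rowsG.getD a 0).testBit b) ||
    !(allN 80 fun i => !(eN i == a * 32 + b)))) = true := by decide +kernel

theorem tG_ex0 : allN 21 (fun c => allN c (fun b => !((rowsG.getD b 0).testBit c) ||
    allN b (fun a => !((rowsG.getD a 0).testBit b) || !((rowsG.getD a 0).testBit c) ||
    !(allN 60 fun j => !(tN j == a * 1024 + b * 32 + c))))) = true := by decide +kernel

theorem I1c : allN 21 (fun b => allN 21 fun v =>
    (sumN 80 fun i => ((if eN i % 32 = b then 1 else 0) - (if eN i / 32 = b then 1 else 0)) * hN i v)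
    == (if v = b then 1 else 0) - (if b = 0 then 1 else 0)) = true := by
  decide +kernel

theorem I3c : allN 60 (fun j => allN 60 fun j' =>
    lN j (t1N j') - lN j (t2N j') + lN j (t3N j') == if j' = j then 1 else 0) = true := by
  decide +kernel

theorem DDc : allN 80 (fun i => allN 60 fun j =>
    ((if t1N j = i then 1 else 0) - (if t2N j = i then 1 else 0) + (if t3N j = i then 1 else 0) : ℤ)
    == sgN i * ((if c1N i = j then 1 else 0) + (if c2N i = j then 1 else 0)
      + (if c3N i = j then 1 else 0))) = true := by
  decide +kernel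

theorem I2c : allN 80 (fun i => allN 80 fun i' =>
    sgN i * ((if c1N i < 60 then lN (c1N i) i' else 0) + (if c2N i < 60 then lN (c2N i) i' else 0)
      + (if c3N i < 60 then lN (c3N i) i' else 0))
      + (hN i (eN i' % 32) - hN i (eN i' / 32)) == if i' = i then 1 else 0) = true := by
  decide +kernel


/-! ### Adjacency and the tables -/

theorem adG_iff (a b : Fin 21) : adG a b ↔ (rowsG.getD a.val 0).testBit b.val = true := Iff.rfl

theorem eG_ex (a b : Fin 21) (h : adG a b) (hab : a < b) : ∃ i, eG i = (a, b) := by
  have h1 := allN_spec (allN_spec eG_ex0 b.val b.isLt) a.val hab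
  have h2 : (rowsG.getD a.val 0).testBit b.val = true := h
  by_contra hne
  push Not at hne
  have h3 : (allN 80 fun i => !(eN i == a.val * 32 + b.val)) = true := by
    have key : ∀ n, n ≤ 80 → (allN n fun i => !(eN i == a.val * 32 + b.val)) = true := by
      intro n
      induction n with
      | zero => intro _; rfl
      | succ n ih =>
        intro hn
        show (!(eN n == a.val * 32 + b.val) && _) = true
        rw [Bool.and_eq_true]
        refine ⟨?_, ih (by omega)⟩
        rw [Bool.not_eq_true', beq_eq_false_iff_ne]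
        intro he
        apply hne ⟨n, by omega⟩
        obtain ⟨e1, e2⟩ := eG_code ⟨n, by omega⟩
        simp only at e1 e2
        have hb := b.isLt
        apply Prod.ext
        · apply Fin.ext
          simp only
          omega
        · apply Fin.ext
          simp only
          omega
    exact key 80 le_rfl
  rw [h2, h3] at h1
  simp at h1

theorem tG_ex (a b c : Fin 21) (h1 : adG a b) (h2 : adG b c) (h3 : adG a c) (hab : a < b)
    (hbc : b < c) : ∃ j, tG j = (a, b, c) := by
  have k1 := allN_spec (allN_spec tG_ex0 c.val c.isLt) b.val hbc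
  have g1 : (rowsG.getD a.val 0).testBit b.val = true := h1
  have g2 : (rowsG.getD b.val 0).testBit c.val = true := h2
  have g3 : (rowsG.getD a.val 0).testBit c.val = true := h3
  rw [g2] at k1
  simp only [Bool.not_true, Bool.false_or] at k1
  have k2 := allN_spec k1 a.val hab
  rw [g1, g3] at k2
  simp only [Bool.not_true, Bool.false_or] at k2
  by_contra hne
  push Not at hne
  have h3 : (allN 60 fun j => !(tN j == a.val * 1024 + b.val * 32 + c.val)) = true := by
    have key : ∀ n, n ≤ 60 → (allN n fun j => !(tN j == a.val * 1024 + b.val * 32 + c.val)) = true := by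
      intro n
      induction n with
      | zero => intro _; rfl
      | succ n ih =>
        intro hn
        show (!(tN n == a.val * 1024 + b.val * 32 + c.val) && _) = true
        rw [Bool.and_eq_true]
        refine ⟨?_, ih (by omega)⟩
        rw [Bool.not_eq_true', beq_eq_false_iff_ne]
        intro he
        apply hne ⟨n, by omega⟩
        obtain ⟨e1, e2, e3⟩ := tG_code ⟨n, by omega⟩
        simp only at e1 e2 e3
        have hb := b.isLt
        have hc := c.isLt
        refine Prod.ext ?_ (Prod.ext ?_ ?_)
        · apply Fin.ext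
          simp only
          omega
        · apply Fin.ext
          simp only
          omega
        · apply Fin.ext
          simp only
          omega
    exact key 60 le_rfl
  rw [h3] at k2
  simp at k2

/-! ### Alternating functions -/

/-- sign -/
def s2 (i : Fin 80) (a b : Fin 21) : ℤ :=
  (if eG i = (a, b) then 1 else 0) - (if eG i = (b, a) then 1 else 0)

/-- sign -/
def s3 (j : Fin 60) (a b c : Fin 21) : ℤ :=
  (if tG j = (a, b, c) then 1 else 0) - (if tG j = (a, c, b) then 1 else 0)
  + (if tG j = (b, c, a) then 1 else 0) - (if tG j = (b, a, c) then 1 else 0)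
  + (if tG j = (c, a, b) then 1 else 0) - (if tG j = (c, b, a) then 1 else 0)

/-- boundary of edges -/
def BB (b : Fin 21) (i : Fin 80) : ℤ :=
  (if (eG i).2 = b then 1 else 0) - (if (eG i).1 = b then 1 else 0)

/-- boundary of triangles -/
def DD (i : Fin 80) (j : Fin 60) : ℤ :=
  (if t1N j.val = i.val then 1 else 0) - (if t2N j.val = i.val then 1 else 0)
    + (if t3N j.val = i.val then 1 else 0)

theorem eG_lt (i : Fin 80) : (eG i).1 < (eG i).2 := by
  have h1 := eG_code i
  have h2 := eN_lt i
  apply Fin.lt_def.2
  rw [h1.1, h1.2]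
  exact h2

theorem tG_lt (j : Fin 60) : (tG j).1 < (tG j).2.1 ∧ (tG j).2.1 < (tG j).2.2 := by
  have h1 := tG_code j
  have h2 := tN_lt j
  refine ⟨Fin.lt_def.2 ?_, Fin.lt_def.2 ?_⟩
  · rw [h1.1, h1.2.1]
    exact h2.1
  · rw [h1.2.1, h1.2.2]
    exact h2.2

theorem eG_inj {i i' : Fin 80} (h : eG i = eG i') : i = i' := by
  apply eN_inj
  have h1 := eG_code i
  have h2 := eG_code i'
  rw [h] at h1
  omega

theorem tG_inj {j j' : Fin 60} (h : tG j = tG j') : j = j' := by
  apply tN_inj
  have h1 := tG_code j
  have h2 := tG_code j'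
  rw [h] at h1
  omega

section M
variable {M : Type} [AddCommGroup M]

/-- the alternating function of an edge function -/
def A2 (w : Fin 80 → M) (a b : Fin 21) : M := ∑ i, s2 i a b • w i

/-- the alternating function of a triangle function -/
def A3 (w : Fin 60 → M) (a b c : Fin 21) : M := ∑ j, s3 j a b c • w j

theorem s2_swap (i : Fin 80) (a b : Fin 21) : s2 i a b = - s2 i b a := by
  unfold s2; ring

theorem s3_swap12 (j : Fin 60) (a b c : Fin 21) : s3 j a b c = - s3 j b a c := by
  unfold s3; ring

theorem s3_swap23 (j : Fin 60) (a b c : Fin 21) : s3 j a b c = - s3 j a c b := by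
  unfold s3; ring

theorem s2_zero (i : Fin 80) (a b : Fin 21) (h : ¬ adG a b) : s2 i a b = 0 := by
  unfold s2
  have h0 := eG_adj i
  rw [if_neg, if_neg, sub_zero]
  · intro he
    rw [he] at h0
    exact h (symG _ _ h0)
  · intro he
    rw [he] at h0
    exact h h0

theorem s3_zero (j : Fin 60) (a b c : Fin 21) (h : ¬ (adG a b ∧ adG b c ∧ adG a c)) :
    s3 j a b c = 0 := by
  unfold s3
  have h0 := tG_adj j
  rw [if_neg, if_neg, if_neg, if_neg, if_neg, if_neg]
  · rfl
  all_goals
    intro he
    rw [he] at h0
    obtain ⟨h1, h2, h3⟩ := h0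
    simp only at h1 h2 h3
    exact h ⟨by first | assumption | exact symG _ _ (by assumption),
      by first | assumption | exact symG _ _ (by assumption),
      by first | assumption | exact symG _ _ (by assumption)⟩

theorem A2_isAlt (w : Fin 80 → M) : IsAlt2 adG Set.univ (A2 w) := by
  refine ⟨fun a b => ?_, fun a b h => ?_⟩
  · unfold A2
    rw [← Finset.sum_neg_distrib]
    exact Finset.sum_congr rfl fun i _ => by rw [s2_swap, neg_smul]
  · unfold A2
    refine Finset.sum_eq_zero fun i _ => ?_
    rw [s2_zero i a b (fun h' => h ⟨Set.mem_univ _, Set.mem_univ _, h'⟩), zero_smul]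

theorem A3_isAlt (w : Fin 60 → M) : IsAlt3 adG Set.univ (A3 w) := by
  refine ⟨fun a b c => ?_, fun a b c => ?_, fun a b c h => ?_⟩
  · unfold A3
    rw [← Finset.sum_neg_distrib]
    exact Finset.sum_congr rfl fun i _ => by rw [s3_swap12, neg_smul]
  · unfold A3
    rw [← Finset.sum_neg_distrib]
    exact Finset.sum_congr rfl fun i _ => by rw [s3_swap23, neg_smul]
  · unfold A3
    refine Finset.sum_eq_zero fun i _ => ?_
    rw [s3_zero i a b c (fun h' => h ⟨Set.mem_univ _, Set.mem_univ _, Set.mem_univ _, h'⟩),
      zero_smul]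

theorem ext2 {y y' : Fin 21 → Fin 21 → M} (h : IsAlt2 adG Set.univ y)
    (h' : IsAlt2 adG Set.univ y')
    (he : ∀ i, y (eG i).1 (eG i).2 = y' (eG i).1 (eG i).2) : ∀ a b, y a b = y' a b := by
  have key : ∀ a b, a < b → y a b = y' a b := by
    intro a b hab
    by_cases had : adG a b
    · obtain ⟨i, hi⟩ := eG_ex a b had hab
      have := he i
      rwa [hi] at this
    · rw [h.2 a b (fun h0 => had h0.2.2), h'.2 a b (fun h0 => had h0.2.2)]
  intro a b
  rcases lt_trichotomy a b with hab | hab | hab
  · exact key a b hab
  · subst hab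
    rw [h.2 a a (fun h0 => irrG _ h0.2.2), h'.2 a a (fun h0 => irrG _ h0.2.2)]
  · rw [h.1 a b, h'.1 a b, key b a hab]

theorem ext3 {z z' : Fin 21 → Fin 21 → Fin 21 → M} (h : IsAlt3 adG Set.univ z)
    (h' : IsAlt3 adG Set.univ z')
    (he : ∀ j, z (tG j).1 (tG j).2.1 (tG j).2.2 = z' (tG j).1 (tG j).2.1 (tG j).2.2) :
    ∀ a b c, z a b c = z' a b c := by
  have key : ∀ a b c, a < b → b < c → z a b c = z' a b c := by
    intro a b c hab hbc
    by_cases had : adG a b ∧ adG b c ∧ adG a c
    · obtain ⟨j, hj⟩ := tG_ex a b c had.1 had.2.1 had.2.2 hab hbc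
      have := he j
      rwa [hj] at this
    · rw [h.2.2 a b c (fun h0 => had h0.2.2.2), h'.2.2 a b c (fun h0 => had h0.2.2.2)]
  have key2 : ∀ a b c, a < c → b < c → z a b c = z' a b c := by
    intro a b c hac hbc
    rcases lt_trichotomy a b with hab | hab | hab
    · exact key a b c hab hbc
    · subst hab
      rw [h.2.2 a a c (fun h0 => irrG _ h0.2.2.2.1), h'.2.2 a a c (fun h0 => irrG _ h0.2.2.2.1)]
    · rw [h.1 a b c, h'.1 a b c, key b a c hab hac]
  have key3 : ∀ a b c, a < c → z a b c = z' a b c := by
    intro a b c hac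
    rcases lt_trichotomy b c with hbc | hbc | hbc
    · exact key2 a b c hac hbc
    · subst hbc
      rw [h.2.2 a b b (fun h0 => irrG _ h0.2.2.2.2.1), h'.2.2 a b b (fun h0 => irrG _ h0.2.2.2.2.1)]
    · rw [h.2.1 a b c, h'.2.1 a b c, key2 a c b (hac.trans hbc) hbc]
  intro a b c
  rcases lt_trichotomy a c with hac | hac | hac
  · exact key3 a b c hac
  · subst hac
    rw [h.2.2 a b a (fun h0 => irrG _ h0.2.2.2.2.2), h'.2.2 a b a (fun h0 => irrG _ h0.2.2.2.2.2)]
  · rcases lt_trichotomy b c with hbc | hbc | hbc
    · -- b < c < a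
      rw [h.1 a b c, h'.1 a b c, h.2.1 b a c, h'.2.1 b a c, key b c a hbc hac]
    · subst hbc
      rw [h.2.2 a b b (fun h0 => irrG _ h0.2.2.2.2.1), h'.2.2 a b b (fun h0 => irrG _ h0.2.2.2.2.1)]
    · -- c < b, c < a
      rw [h.2.1 a b c, h'.2.1 a b c, h.1 a c b, h'.1 a c b]
      rw [key3 c a b hbc]

theorem A2_e (w : Fin 80 → M) (i : Fin 80) : A2 w (eG i).1 (eG i).2 = w i := by
  unfold A2 s2
  rw [Finset.sum_eq_single i]
  · rw [if_pos rfl, if_neg, sub_zero, one_smul]
    intro h
    have h1 := eG_lt i
    have h2 : (eG i).1 = (eG i).2 := congrArg Prod.fst h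
    exact absurd h2 h1.ne
  · intro i' _ hne
    rw [if_neg, if_neg, sub_zero, zero_smul]
    · intro h
      have h1 := eG_lt i
      have h2 := eG_lt i'
      rw [h] at h2
      exact absurd h1 h2.asymm
    · intro h
      exact hne (eG_inj h)
  · intro h
    exact absurd (Finset.mem_univ _) h

theorem A3_t (w : Fin 60 → M) (j : Fin 60) : A3 w (tG j).1 (tG j).2.1 (tG j).2.2 = w j := by
  have h1 := tG_lt j
  unfold A3 s3
  rw [Finset.sum_eq_single j]
  · rw [if_pos rfl, if_neg, if_neg, if_neg, if_neg, if_neg]
    · simp
    all_goals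
      intro h
      have h2 := tG_lt j
      rw [h] at h2
      have h3 := h1.1
      have h4 := h1.2
      have h5 := h2.1
      have h6 := h2.2
      simp only [Fin.lt_def] at h3 h4 h5 h6
      omega
  · intro j' _ hne
    rw [if_neg, if_neg, if_neg, if_neg, if_neg, if_neg]
    · simp
    all_goals
      intro h
      first
        | exact hne (tG_inj h)
        | (have h2 := tG_lt j'
           rw [h] at h2
           have h3 := h1.1
           have h4 := h1.2
           have h5 := h2.1
           have h6 := h2.2
           simp only [Fin.lt_def] at h3 h4 h5 h6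
           omega)
  · intro h
    exact absurd (Finset.mem_univ _) h

theorem sum_one (P : Fin 21 → Prop) [DecidablePred P] (Q : Prop) [Decidable Q] (a0 : Fin 21)
    (h1 : ∀ a, P a → Q ∧ a = a0) (h2 : Q → P a0) :
    ∑ a, (if P a then (1 : ℤ) else 0) = if Q then 1 else 0 := by
  by_cases hQ : Q
  · rw [if_pos hQ, Finset.sum_eq_single a0]
    · rw [if_pos (h2 hQ)]
    · intro b _ hb
      rw [if_neg (fun hP => hb (h1 b hP).2)]
    · intro h
      exact absurd (Finset.mem_univ _) h
  · rw [if_neg hQ]
    refine Finset.sum_eq_zero fun a _ => ?_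
    rw [if_neg (fun hP => hQ (h1 a hP).1)]

theorem sum_s2 (i : Fin 80) (b : Fin 21) : ∑ a, s2 i a b = BB b i := by
  unfold s2 BB
  rw [Finset.sum_sub_distrib]
  congr 1
  · apply sum_one _ _ (eG i).1
    · intro a h
      rw [h]
      exact ⟨rfl, rfl⟩
    · intro h
      rw [← h]
  · apply sum_one _ _ (eG i).2
    · intro a h
      rw [h]
      exact ⟨rfl, rfl⟩
    · intro h
      rw [← h]

theorem eqE (i : Fin 80) (k : ℕ) (hk : k < 80) (b c : Fin 21) (hi : eG i = (b, c)) (n : ℕ)
    (hn : eN k = n) : k = i.val ↔ n = b.val * 32 + c.val := by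
  have h1 := eG_code i
  rw [hi] at h1
  simp only at h1
  constructor
  · intro h
    subst h
    omega
  · intro h
    have : (⟨k, hk⟩ : Fin 80) = i := by
      apply eN_inj
      simp only
      omega
    rw [← this]

theorem sum_s3 (i : Fin 80) (j : Fin 60) : ∑ a, s3 j a (eG i).1 (eG i).2 = DD i j := by
  obtain ⟨b, c, hbc⟩ : ∃ b c, eG i = (b, c) := ⟨_, _, rfl⟩
  obtain ⟨p, q, r, hpqr⟩ : ∃ p q r, tG j = (p, q, r) := ⟨_, _, _, rfl⟩
  have hlt := eG_lt i
  have hlt3 := tG_lt j
  have hc := tG_code j
  obtain ⟨g1, g2, g3, g4, g5, g6⟩ := tE j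
  have e1 := eqE i _ g1 b c hbc _ g4
  have e2 := eqE i _ g2 b c hbc _ g5
  have e3 := eqE i _ g3 b c hbc _ g6
  rw [hbc] at hlt ⊢
  rw [hpqr] at hlt3 hc
  simp only [Fin.lt_def] at hlt hlt3 hc ⊢
  have hb := b.isLt
  have hc2 := c.isLt
  have hp := p.isLt
  have hq := q.isLt
  have hr := r.isLt
  unfold s3 DD
  simp only [Finset.sum_sub_distrib, Finset.sum_add_distrib]
  rw [sum_one (fun a => tG j = (a, b, c)) (t1N j.val = i.val) p
      (by
        intro a h
        rw [hpqr] at h
        simp only [Prod.mk.injEq] at h
        obtain ⟨rfl, rfl, rfl⟩ := h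
        exact ⟨e1.2 (by omega), rfl⟩)
      (by
        intro h
        have := e1.1 h
        rw [hpqr]
        simp only [Prod.mk.injEq, true_and]
        exact ⟨Fin.ext (by omega), Fin.ext (by omega)⟩),
    sum_one (fun a => tG j = (a, c, b)) False p
      (by
        intro a h
        rw [hpqr] at h
        simp only [Prod.mk.injEq] at h
        obtain ⟨rfl, rfl, rfl⟩ := h
        omega)
      (fun h => h.elim),
    sum_one (fun a => tG j = (b, c, a)) (t3N j.val = i.val) r
      (by
        intro a h
        rw [hpqr] at h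
        simp only [Prod.mk.injEq] at h
        obtain ⟨rfl, rfl, rfl⟩ := h
        exact ⟨e3.2 (by omega), rfl⟩)
      (by
        intro h
        have := e3.1 h
        rw [hpqr]
        simp only [Prod.mk.injEq, and_true]
        exact ⟨Fin.ext (by omega), Fin.ext (by omega)⟩),
    sum_one (fun a => tG j = (b, a, c)) (t2N j.val = i.val) q
      (by
        intro a h
        rw [hpqr] at h
        simp only [Prod.mk.injEq] at h
        obtain ⟨rfl, rfl, rfl⟩ := h
        exact ⟨e2.2 (by omega), rfl⟩)
      (by
        intro h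
        have := e2.1 h
        rw [hpqr]
        simp only [Prod.mk.injEq, true_and]
        exact ⟨Fin.ext (by omega), Fin.ext (by omega)⟩),
    sum_one (fun a => tG j = (c, a, b)) False q
      (by
        intro a h
        rw [hpqr] at h
        simp only [Prod.mk.injEq] at h
        obtain ⟨rfl, rfl, rfl⟩ := h
        omega)
      (fun h => h.elim),
    sum_one (fun a => tG j = (c, b, a)) False r
      (by
        intro a h
        rw [hpqr] at h
        simp only [Prod.mk.injEq] at h
        obtain ⟨rfl, rfl, rfl⟩ := h
        omega)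
      (fun h => h.elim)]
  simp only [if_false]
  ring

theorem bd2 (w : Fin 80 → M) (b : Fin 21) : ∑ a, A2 w a b = ∑ i, BB b i • w i := by
  unfold A2
  rw [Finset.sum_comm]
  refine Finset.sum_congr rfl fun i _ => ?_
  rw [← Finset.sum_smul, sum_s2]

theorem bd3 (w : Fin 60 → M) (i : Fin 80) :
    ∑ a, A3 w a (eG i).1 (eG i).2 = ∑ j, DD i j • w j := by
  unfold A3
  rw [Finset.sum_comm]
  refine Finset.sum_congr rfl fun j _ => ?_
  rw [← Finset.sum_smul, sum_s3]

end M

/-! ### The contraction -/

theorem I1 (b v : Fin 21) : ∑ i : Fin 80, BB b i * hN i.val v.val =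
    (if v = b then 1 else 0) - (if b = 0 then 1 else 0) := by
  have h := allN_spec (allN_spec I1c b.val b.isLt) v.val v.isLt
  rw [beq_iff_eq, ← sumN_spec] at h
  have e : ∑ i : Fin 80, BB b i * hN i.val v.val = ∑ i : Fin 80,
      ((if eN i.val % 32 = b.val then 1 else 0) - (if eN i.val / 32 = b.val then 1 else 0))
        * hN i.val v.val := by
    refine Finset.sum_congr rfl fun i _ => ?_
    unfold BB
    have hc := eG_code i
    simp only [Fin.ext_iff, hc.1, hc.2]
  rw [e, h]
  simp only [Fin.ext_iff, Fin.val_zero]

theorem sum_delta (n : ℕ) (k : ℕ) (f : ℕ → ℤ) :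
    ∑ j : Fin n, (if k = j.val then 1 else 0) * f j.val = if k < n then f k else 0 := by
  by_cases hk : k < n
  · rw [if_pos hk, Finset.sum_eq_single ⟨k, hk⟩]
    · simp
    · intro j _ hj
      rw [if_neg, zero_mul]
      intro h
      apply hj
      apply Fin.ext
      exact h.symm
    · intro h
      exact absurd (Finset.mem_univ _) h
  · rw [if_neg hk]
    refine Finset.sum_eq_zero fun j _ => ?_
    rw [if_neg, zero_mul]
    intro h
    exact hk (h ▸ j.isLt)

theorem I3 (j j' : Fin 60) : ∑ i : Fin 80, lN j.val i.val * DD i j' = if j' = j then 1 else 0 := by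
  have h := allN_spec (allN_spec I3c j.val j.isLt) j'.val j'.isLt
  rw [beq_iff_eq] at h
  have e : ∀ i : Fin 80, lN j.val i.val * DD i j' =
      (if t1N j'.val = i.val then 1 else 0) * lN j.val i.val
      - (if t2N j'.val = i.val then 1 else 0) * lN j.val i.val
      + (if t3N j'.val = i.val then 1 else 0) * lN j.val i.val := by
    intro i
    unfold DD
    ring
  rw [Finset.sum_congr rfl fun i _ => e i, Finset.sum_add_distrib, Finset.sum_sub_distrib,
    sum_delta 80 _ (lN j.val), sum_delta 80 _ (lN j.val), sum_delta 80 _ (lN j.val)]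
  obtain ⟨g1, g2, g3, -⟩ := tE j'
  rw [if_pos g1, if_pos g2, if_pos g3, h]
  simp only [Fin.ext_iff]

theorem I2 (i i' : Fin 80) : ∑ j : Fin 60, DD i j * lN j.val i'.val =
    (if i' = i then 1 else 0) - (hN i.val (eG i').2.val - hN i.val (eG i').1.val) := by
  have h := allN_spec (allN_spec I2c i.val i.isLt) i'.val i'.isLt
  rw [beq_iff_eq] at h
  have e : ∀ j : Fin 60, DD i j * lN j.val i'.val =
      sgN i.val * ((if c1N i.val = j.val then 1 else 0) * lN j.val i'.val
      + (if c2N i.val = j.val then 1 else 0) * lN j.val i'.val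
      + (if c3N i.val = j.val then 1 else 0) * lN j.val i'.val) := by
    intro j
    have hd := allN_spec (allN_spec DDc i.val i.isLt) j.val j.isLt
    rw [beq_iff_eq] at hd
    unfold DD
    rw [hd]
    ring
  rw [Finset.sum_congr rfl fun j _ => e j, ← Finset.mul_sum, Finset.sum_add_distrib,
    Finset.sum_add_distrib, sum_delta 60 _ (fun j => lN j i'.val),
    sum_delta 60 _ (fun j => lN j i'.val), sum_delta 60 _ (fun j => lN j i'.val)]
  have hc := eG_code i'
  rw [hc.1, hc.2]
  simp only [Fin.ext_iff]
  linarith

/-- **M8a** -/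
theorem acycG : Acyc adG := by
  constructor
  · intro M _ x hx
    refine ⟨A2 (fun i : Fin 80 => ∑ v : Fin 21, hN i.val v.val • x v), A2_isAlt _, fun b => ?_⟩
    rw [bd2]
    have e : ∑ i : Fin 80, BB b i • ∑ v : Fin 21, hN i.val v.val • x v =
        ∑ v : Fin 21, (∑ i : Fin 80, BB b i * hN i.val v.val) • x v := by
      simp only [Finset.smul_sum, Finset.sum_smul, smul_smul]
      rw [Finset.sum_comm]
    rw [e]
    simp only [I1, sub_smul, Finset.sum_sub_distrib, ite_smul, one_smul, zero_smul]
    rw [Finset.sum_ite_eq' Finset.univ b x, if_pos (Finset.mem_univ _)]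
    by_cases hb : b = 0
    · simp only [if_pos hb, hx, sub_zero]
    · simp only [if_neg hb, Finset.sum_const_zero, sub_zero]
  · intro M _ y hy h0
    have hY : ∀ a b, y a b = A2 (fun i => y (eG i).1 (eG i).2) a b :=
      ext2 hy (A2_isAlt _) (fun i => (A2_e (fun i => y (eG i).1 (eG i).2) i).symm)
    have hB : ∀ b, ∑ i, BB b i • y (eG i).1 (eG i).2 = 0 := by
      intro b
      rw [← bd2 (fun i => y (eG i).1 (eG i).2) b, ← h0 b]
      exact Finset.sum_congr rfl fun a _ => (hY a b).symm
    set z := A3 (fun j : Fin 60 => ∑ i : Fin 80, lN j.val i.val • y (eG i).1 (eG i).2) with hz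
    have hzA : IsAlt3 adG Set.univ z := A3_isAlt _
    refine ⟨z, hzA, ?_⟩
    have hzB : IsAlt2 adG Set.univ (fun b c => ∑ a, z a b c) := by
      refine ⟨fun b c => ?_, fun b c h => ?_⟩
      · simp only
        rw [← Finset.sum_neg_distrib]
        exact Finset.sum_congr rfl fun a _ => hzA.2.1 a b c
      · refine Finset.sum_eq_zero fun a _ => ?_
        apply hzA.2.2
        intro h'
        exact h ⟨Set.mem_univ _, Set.mem_univ _, h'.2.2.2.2.1⟩
    refine ext2 hy hzB fun i => ?_
    rw [hz, bd3]
    have e : ∑ j : Fin 60, DD i j • ∑ i' : Fin 80, lN j.val i'.val • y (eG i').1 (eG i').2 =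
        ∑ i' : Fin 80, (∑ j : Fin 60, DD i j * lN j.val i'.val) • y (eG i').1 (eG i').2 := by
      simp only [Finset.smul_sum, Finset.sum_smul, smul_smul]
      rw [Finset.sum_comm]
    rw [e]
    simp only [I2, sub_smul (_ : ℤ), Finset.sum_sub_distrib, ite_smul, one_smul, zero_smul]
    rw [Finset.sum_ite_eq' Finset.univ i (fun i' => y (eG i').1 (eG i').2),
      if_pos (Finset.mem_univ _)]
    have e2 : ∑ i' : Fin 80, hN i.val (eG i').2.val • y (eG i').1 (eG i').2
        - ∑ i' : Fin 80, hN i.val (eG i').1.val • y (eG i').1 (eG i').2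
        = ∑ v : Fin 21, hN i.val v.val • ∑ i' : Fin 80, BB v i' • y (eG i').1 (eG i').2 := by
      have e3 : ∀ i' : Fin 80, ∑ v : Fin 21, (hN i.val v.val * BB v i') =
          hN i.val (eG i').2.val - hN i.val (eG i').1.val := by
        intro i'
        unfold BB
        simp only [mul_sub, mul_ite, mul_one, mul_zero, Finset.sum_sub_distrib]
        rw [Finset.sum_ite_eq Finset.univ (eG i').2 (fun v : Fin 21 => hN i.val v.val),
          Finset.sum_ite_eq Finset.univ (eG i').1 (fun v : Fin 21 => hN i.val v.val),
          if_pos (Finset.mem_univ _), if_pos (Finset.mem_univ _)]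
      simp only [Finset.smul_sum, smul_smul]
      rw [Finset.sum_comm]
      simp only [← Finset.sum_smul, e3, sub_smul (_ : ℤ), Finset.sum_sub_distrib]
    rw [e2]
    simp only [hB, smul_zero, Finset.sum_const_zero, sub_zero]
  · intro M _ z hz h0
    have hZ : ∀ a b c, z a b c = A3 (fun j => z (tG j).1 (tG j).2.1 (tG j).2.2) a b c :=
      ext3 hz (A3_isAlt _) (fun j => (A3_t (fun j => z (tG j).1 (tG j).2.1 (tG j).2.2) j).symm)
    have hD : ∀ i, ∑ j, DD i j • z (tG j).1 (tG j).2.1 (tG j).2.2 = 0 := by
      intro i
      rw [← bd3 (fun j => z (tG j).1 (tG j).2.1 (tG j).2.2) i, ← h0 (eG i).1 (eG i).2]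
      exact Finset.sum_congr rfl fun a _ => (hZ a _ _).symm
    have hz0 : ∀ j, z (tG j).1 (tG j).2.1 (tG j).2.2 = 0 := by
      intro j
      have e : z (tG j).1 (tG j).2.1 (tG j).2.2 =
          ∑ j' : Fin 60, (∑ i : Fin 80, lN j.val i.val * DD i j') •
            z (tG j').1 (tG j').2.1 (tG j').2.2 := by
        simp only [I3, ite_smul, one_smul, zero_smul]
        rw [Finset.sum_ite_eq' Finset.univ j
          (fun j' => z (tG j').1 (tG j').2.1 (tG j').2.2), if_pos (Finset.mem_univ _)]
      have e2 : ∑ j' : Fin 60, (∑ i : Fin 80, lN j.val i.val * DD i j') •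
            z (tG j').1 (tG j').2.1 (tG j').2.2 =
          ∑ i : Fin 80, lN j.val i.val • ∑ j' : Fin 60, DD i j' •
            z (tG j').1 (tG j').2.1 (tG j').2.2 := by
        simp only [Finset.smul_sum, Finset.sum_smul, smul_smul]
        rw [Finset.sum_comm]
      rw [e, e2]
      simp only [hD, smul_zero, Finset.sum_const_zero]
    intro a b c
    rw [hZ a b c]
    unfold A3
    simp only [hz0, smul_zero, Finset.sum_const_zero]

end Pool.Agent.Helper514_HC
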